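import Pool.Agent.Y751.DH.Eq3

set_option autoImplicit false

/-!
# Equivalent forms of the density hypothesis

The density hypothesis for the zeros of the Riemann zeta function (and every zero density theorem with an
exponent `φ(σ) ≥ 2 (1 - σ)`) is equivalent to bounds of the same quality for: the number of dense clusters of
zeros; the number of the unit intervals to the right of `σ` over which `|log |ζ||` is not small compared with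
`log T` (zeros included); the measure of the set of large values of `ζ(σ + it)`; the number of large values of
the smoothed zeta polynomials.

The proof uses the density theorem for zeros near which zeta is small, and the local form of Backlund's
theorem, from the starting files (`Pool.Agent.H31R2.DH`).
-/

open Complex MeasureTheory Set

namespace Pool.Agent.Results.MP_4467b5_nt.EquivalentForms

/-- The number of the zeros of zeta, counted with multiplicity, with real part at least `σ` and ordinate in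
`(a, b]`. -/
noncomputable def N (σ a b : ℝ) : ℕ :=
  ∑ᶠ s ∈ {s : ℂ | riemannZeta s = 0 ∧ σ ≤ s.re ∧ a < s.im ∧ s.im ≤ b},
    analyticOrderNatAt riemannZeta s

/-- The smoothed zeta polynomial `∑_{m ≥ 1} m^{-it} e^{-m/M}` of length `M`. -/
noncomputable def F (M t : ℝ) : ℂ :=
  ∑' m : ℕ, (Real.exp (-((m + 1) / M)) : ℂ) * ((m : ℂ) + 1) ^ (-(t * I))

/-- `N(σ, T) = O(T^(φ(σ) + ε))` for every `ε > 0`, uniformly in `1/2 ≤ σ ≤ 1`. -/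
def ZeroDensity (φ : ℝ → ℝ) : Prop :=
  ∀ ε : ℝ, 0 < ε → ∃ C : ℝ, 0 < C ∧ ∃ T₀ : ℝ, ∀ T : ℝ, T₀ ≤ T → ∀ σ : ℝ, 1 / 2 ≤ σ → σ ≤ 1 →
    (N σ 0 T : ℝ) ≤ C * T ^ (φ σ + ε)

/-- For every `η > 0` the number of the unit intervals `(n, n+1]`, `n + 1 ≤ T`, which contain the ordinates
of at least `η log T` zeros with real part at least `σ` is `O(T^(φ(σ) + ε))`. -/
def ClusterDensity (φ : ℝ → ℝ) : Prop :=
  ∀ ε : ℝ, 0 < ε → ∀ η : ℝ, 0 < η → ∃ C : ℝ, 0 < C ∧ ∃ T₀ : ℝ, ∀ T : ℝ, T₀ ≤ T →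
    ∀ σ : ℝ, 1 / 2 ≤ σ → σ ≤ 1 →
      (((Finset.range ⌊T⌋₊).filter (fun n : ℕ => η * Real.log T ≤ N σ n (n + 1))).card : ℝ) ≤
        C * T ^ (φ σ + ε)

open Classical in
/-- For every `δ > 0` the number of the `n < T` such that `T^(-δ) ≤ |ζ(s)| ≤ T^δ` fails for some `s` with
real part at least `σ` and ordinate in `[n, n+1]` is `O(T^(φ(σ) + ε))`. -/
def LogDensity (φ : ℝ → ℝ) : Prop :=
  ∀ ε : ℝ, 0 < ε → ∀ δ : ℝ, 0 < δ → ∃ C : ℝ, 0 < C ∧ ∃ T₀ : ℝ, ∀ T : ℝ, T₀ ≤ T →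
    ∀ σ : ℝ, 1 / 2 ≤ σ → σ ≤ 1 →
      (((Finset.range ⌊T⌋₊).filter (fun n : ℕ => ∃ s : ℂ, σ ≤ s.re ∧ (n : ℝ) ≤ s.im ∧ s.im ≤ n + 1 ∧
        ¬ (T ^ (-δ) ≤ ‖riemannZeta s‖ ∧ ‖riemannZeta s‖ ≤ T ^ δ))).card : ℝ) ≤ C * T ^ (φ σ + ε)

/-- For every `δ > 0` the measure of the set of the `t ∈ [0, T]` with `|ζ(σ + it)| ≥ T^δ` is
`O(T^(φ(σ) + ε))`. -/
def LargeZeta (φ : ℝ → ℝ) : Prop :=
  ∀ ε : ℝ, 0 < ε → ∀ δ : ℝ, 0 < δ → ∃ C : ℝ, 0 < C ∧ ∃ T₀ : ℝ, ∀ T : ℝ, T₀ ≤ T →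
    ∀ σ : ℝ, 1 / 2 ≤ σ → σ ≤ 1 →
      volume {t : ℝ | 0 ≤ t ∧ t ≤ T ∧ T ^ δ ≤ ‖riemannZeta (σ + t * I)‖} ≤
        ENNReal.ofReal (C * T ^ (φ σ + ε))

/-- For every `δ > 0` the number of the points of a `1`-separated set in `[0, T]` at which, for some
`T^δ ≤ M ≤ T^2`, the smoothed zeta polynomial of length `M` is at least `M^σ` in modulus is
`O(T^(φ(σ) + ε))`. -/
def LargePoly (φ : ℝ → ℝ) : Prop :=
  ∀ ε : ℝ, 0 < ε → ∀ δ : ℝ, 0 < δ → ∃ C : ℝ, 0 < C ∧ ∃ T₀ : ℝ, ∀ T : ℝ, T₀ ≤ T →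
    ∀ σ : ℝ, 1 / 2 ≤ σ → σ ≤ 1 → ∀ S : Finset ℝ,
      (∀ t ∈ S, ∀ u ∈ S, t ≠ u → 1 ≤ |t - u|) →
      (∀ t ∈ S, 0 ≤ t ∧ t ≤ T ∧ ∃ M : ℝ, T ^ δ ≤ M ∧ M ≤ T ^ 2 ∧ M ^ σ ≤ ‖F M t‖) →
      (S.card : ℝ) ≤ C * T ^ (φ σ + ε)

/-- **Equivalent forms of zero density**, in particular (`φ(σ) = 2 (1 - σ)`) of the density hypothesis. -/
theorem result (φ : ℝ → ℝ) (hc : ContinuousOn φ (Icc (1 / 2) 1)) (hφ : AntitoneOn φ (Icc (1 / 2) 1))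
    (hlow : ∀ σ ∈ Icc (1 / 2 : ℝ) 1, 2 * (1 - σ) ≤ φ σ) :
    List.TFAE [ZeroDensity φ, ClusterDensity φ, LogDensity φ, LargeZeta φ, LargePoly φ] :=
  Pool.Agent.Y751.DH.tfae' hc hφ hlow

end Pool.Agent.Results.MP_4467b5_nt.EquivalentForms
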