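import Pool.Agent.Y757.HW.Top3
import Pool.Agent.Y757.HW.Top4
import Pool.Agent.Y757.EM.Fin
import Pool.Agent.Y764.HW.Sym
import Pool.Agent.Y484.HW.Bl2
import Pool.Agent.Y768.HW.Max

/-!
# MP_4467b5_nt: the density hypothesis for the zeros in full windows

For `σ > 1/2` a window `[t - H/2, t + H/2]` contains at most `(1/(4π) + o(1)) H log t` imaginary parts
of zeros with real part at least `σ` (part (4)): by the functional equation there are as many zeros on
the left, and there are about `(H/2π) log t` zeros in all. Let `η ≤ 1/(4π)`. We show unconditionally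
that, for `H ≥ H₀(e)`, at most `T^(1 - 4πη(2σ-1) + e)` of the zeros with real part at least `σ` and
height at most `T` have at least `η H log T` zeros of this kind within height `H/2` (part (1), `k = 2`).
For the largest `η`, the density of a full window, the exponent is `2(1-σ)`: these zeros satisfy the
density hypothesis (part (2)).

More precisely, let `Mass t H` be the sum of the distances to the critical line of the zeros right of it
in the window. Then `∫_1^T exp((4πk/H) Mass t H) dt ≤ T^(1+e)` for `k = 2`, and for every `k` for which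
the moment of order `2k` of `ζ` on the critical line is `O(T^(1+ε))` for all `ε`. Pointwise,
`Mass t H ≤ (κ/(2π) + e) H log t` if `ζ(1/2+it) = O(|t|^(κ+ε))`, in particular for `κ = 1/6` (part (3)).

Proof. Let `B` be the Blaschke product of the half-plane `Re s > 1/2` formed with the zeros in a window.
Then `|ζ/B|^(2k)` at the point `3/2 + iu` is at most its Poisson integral, the mean value of
`|ζ|^(2k)` near `1/2 + iu`. The mean value of `-log |B(3/2 + iu)|` over `u` is `2π/H` times the mass, up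
to a factor `1 + o(1)` for `H` large. Part (4) uses the half-plane `Re s > -1/4`.

Parts of the proof are due to helpers 657, 765, 219, 338, 764, 484, 768; the Jensen inequality with
mean squares in a half-plane is `Pool.Agent.Y693.R4.blaschke` (helper 693).
-/

set_option autoImplicit false

namespace Pool.Agent.Results.MP_4467b5_nt.FullWindows

open MeasureTheory Set Pool.Agent.Y757.HW

theorem hyp_of {k : ℕ} (h : k = 2 ∨ Moment k) : Pool.Agent.Y757.EM.HypK k := by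
  rcases h with rfl | h
  · exact Pool.Agent.Y757.EM.hyp2
  · exact Pool.Agent.Y757.EM.hyp_of_moment h

theorem result :
    -- (1) exponential moments of the mass, measure of the set of the windows, number of the zeros
    (∀ k : ℕ, 1 ≤ k → (k = 2 ∨ Moment k) → ∀ e : ℝ, 0 < e →
      ∃ H₀ : ℝ, 1 ≤ H₀ ∧ ∀ H : ℝ, H₀ ≤ H → ∃ T₀ : ℝ, 1 ≤ T₀ ∧ ∀ T : ℝ, T₀ ≤ T →
        (∫⁻ t in Icc 1 T, ENNReal.ofReal (Real.exp (4 * Real.pi * k / H * Mass t H)) ≤
          ENNReal.ofReal (T ^ (1 + e))) ∧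
        ∀ σ η : ℝ, 1 / 2 ≤ σ → σ ≤ 1 → 0 ≤ η →
          volume {t : ℝ | 1 ≤ t ∧ t ≤ T ∧ η * H * Real.log T ≤ N σ t H} ≤
            ENNReal.ofReal (T ^ (1 - 2 * Real.pi * k * η * (2 * σ - 1) + e)) ∧
          ∀ S : Finset ℂ, (∀ ρ ∈ S, riemannZeta ρ = 0 ∧ σ ≤ ρ.re ∧ 2 ≤ ρ.im ∧ ρ.im ≤ T ∧
              η * H * Real.log T ≤ N σ ρ.im H) →
            ∑ ρ ∈ S, (analyticOrderNatAt riemannZeta ρ : ℝ) ≤
              T ^ (1 - 2 * Real.pi * k * η * (2 * σ - 1) + e)) ∧
    -- (2) the density hypothesis for the zeros in full windows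
    (∀ e : ℝ, 0 < e → ∃ c H₀ : ℝ, 0 < c ∧ 1 ≤ H₀ ∧ ∀ H : ℝ, H₀ ≤ H → ∃ T₀ : ℝ, 1 ≤ T₀ ∧
      ∀ T : ℝ, T₀ ≤ T → ∀ σ : ℝ, 1 / 2 ≤ σ → σ ≤ 1 →
        ∀ S : Finset ℂ, (∀ ρ ∈ S, riemannZeta ρ = 0 ∧ σ ≤ ρ.re ∧ 2 ≤ ρ.im ∧ ρ.im ≤ T ∧
            (1 / (4 * Real.pi) - c) * H * Real.log T ≤ N σ ρ.im H) →
          ∑ ρ ∈ S, (analyticOrderNatAt riemannZeta ρ : ℝ) ≤ T ^ (2 * (1 - σ) + e)) ∧
    -- (3) pointwise bounds
    (∀ κ : ℝ, 0 ≤ κ → κ < 1 → (κ = 1 / 6 ∨ Growth κ) → ∀ e : ℝ, 0 < e →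
      ∃ H₀ : ℝ, 1 ≤ H₀ ∧ ∀ H : ℝ, H₀ ≤ H → ∃ t₀ : ℝ, 1 ≤ t₀ ∧ ∀ t : ℝ, t₀ ≤ t →
        Mass t H ≤ (κ / (2 * Real.pi) + e) * H * Real.log t) ∧
    -- (4) the maximal number of zeros right of `σ`
    (∀ σ e : ℝ, 1 / 2 < σ → 0 < e → ∃ H₀ : ℝ, 1 ≤ H₀ ∧ ∀ H : ℝ, H₀ ≤ H →
      ∃ t₀ : ℝ, 1 ≤ t₀ ∧ ∀ t : ℝ, t₀ ≤ t → N σ t H ≤ (1 / (4 * Real.pi) + e) * H * Real.log t) := by
  have hpi := Real.pi_pos
  refine ⟨?_, ?_, ?_, ?_⟩
  · intro k hk hm e he
    obtain ⟨H1, hH1, h1⟩ := exp_mass k hk (hyp_of hm) e he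
    obtain ⟨H2, hH2, h2⟩ := meas_N k hk (hyp_of hm) e he
    obtain ⟨H3, hH3, h3⟩ := cnt_zeros k hk (hyp_of hm) e he
    refine ⟨max H1 (max H2 H3), hH1.trans (le_max_left _ _), fun H hH => ?_⟩
    obtain ⟨T1, hT1, g1⟩ := h1 H ((le_max_left _ _).trans hH)
    obtain ⟨T2, hT2, g2⟩ := h2 H (((le_max_left _ _).trans (le_max_right _ _)).trans hH)
    obtain ⟨T3, hT3, g3⟩ := h3 H (((le_max_right _ _).trans (le_max_right _ _)).trans hH)
    refine ⟨max T1 (max T2 T3), hT1.trans (le_max_left _ _), fun T hT => ⟨g1 T ((le_max_left _ _).trans hT),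
      fun σ η hσ hσ1 hη => ⟨?_, ?_⟩⟩⟩
    · exact g2 T (((le_max_left _ _).trans (le_max_right _ _)).trans hT) σ η hσ
    · exact g3 T (((le_max_right _ _).trans (le_max_right _ _)).trans hT) σ η hσ hσ1 hη
  · intro e he
    obtain ⟨H0, hH0, h⟩ := cnt_zeros 2 (by norm_num) Pool.Agent.Y757.EM.hyp2 (e / 2) (by positivity)
    refine ⟨min (1 / (4 * Real.pi)) (e / (8 * Real.pi)), H0, lt_min (by positivity) (by positivity), hH0,
      fun H hH => ?_⟩
    obtain ⟨T0, hT0, g⟩ := h H hH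
    refine ⟨T0, hT0, fun T hT σ hσ hσ1 S hS => ?_⟩
    set c : ℝ := min (1 / (4 * Real.pi)) (e / (8 * Real.pi)) with hc
    have hc1 : c ≤ 1 / (4 * Real.pi) := min_le_left _ _
    have hc2 : c ≤ e / (8 * Real.pi) := min_le_right _ _
    refine (g T hT σ (1 / (4 * Real.pi) - c) hσ hσ1 (by linarith) S hS).trans ?_
    apply Real.rpow_le_rpow_of_exponent_le (hT0.trans hT)
    have e1 : 2 * Real.pi * (2 : ℕ) * (1 / (4 * Real.pi) - c) * (2 * σ - 1) =
        (2 * σ - 1) - 4 * Real.pi * c * (2 * σ - 1) := by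
      push_cast
      field_simp
      ring
    have e2 : 4 * Real.pi * c ≤ e / 2 := by
      rw [le_div_iff₀ (by positivity)] at hc2
      linarith
    have e3 : 4 * Real.pi * c * (2 * σ - 1) ≤ e / 2 * 1 :=
      mul_le_mul e2 (by linarith) (by linarith) (by positivity)
    rw [e1]
    linarith
  · intro κ h0 h1 h e he
    rcases h with rfl | h
    · exact mass_growth _ h0 h1 growth_sixth e he
    · exact mass_growth κ h0 h1 h e he
  · exact Pool.Agent.Y768.HW.t_max p_jen Pool.Agent.Y764.HW.t_sym Pool.Agent.Y484.HW.t_bl2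

end Pool.Agent.Results.MP_4467b5_nt.FullWindows
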