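import Pool.Agent.Y853.DZ.Fin

/-!
# The density hypothesis read off the zeros, to the left of the critical line, of the derivatives of
zeta, of its a-points, and of every `P(d/ds) ζ - A`
-/

set_option autoImplicit false

open Polynomial Set

namespace Pool.Agent.Results.MP_4467b5_nt.LeftZerosDensity

/-- The number of the zeros of zeta, with multiplicity, with real part at least `σ` and ordinate in
`(0, T]`. -/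
noncomputable def N (σ T : ℝ) : ℕ :=
  ∑ᶠ s ∈ {s : ℂ | riemannZeta s = 0 ∧ σ ≤ s.re ∧ 0 < s.im ∧ s.im ≤ T}, analyticOrderNatAt riemannZeta s

/-- `N(σ, T) = O(T^(φ(σ) + ε))` for every `ε > 0`, uniformly in `1/2 ≤ σ ≤ 1`. -/
def ZeroDensity (φ : ℝ → ℝ) : Prop :=
  ∀ ε : ℝ, 0 < ε → ∃ C : ℝ, 0 < C ∧ ∃ T₀ : ℝ, ∀ T : ℝ, T₀ ≤ T → ∀ σ : ℝ, 1 / 2 ≤ σ → σ ≤ 1 →
    (N σ T : ℝ) ≤ C * T ^ (φ σ + ε)

/-- The density hypothesis. -/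
def DensityHypothesis : Prop := ZeroDensity fun σ => 2 * (1 - σ)

/-- Entire functions bounded on every vertical strip (for example constants, Dirichlet polynomials). -/
def Tame (A : ℂ → ℂ) : Prop := Differentiable ℂ A ∧ ∀ R : ℝ, ∃ B : ℝ, ∀ s : ℂ, |s.re| ≤ R → ‖A s‖ ≤ B

/-- `P(d/ds) ζ(s) - A(s)`. -/
noncomputable def F (P : ℂ[X]) (A : ℂ → ℂ) (s : ℂ) : ℂ :=
  (P.sum fun j c => c * iteratedDeriv j riemannZeta s) - A s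

/-- The number of the zeros of `F`, with multiplicity, with `-1 < Re s < 1 - σ` and `a < Im s ≤ b`. -/
noncomputable def Left (F : ℂ → ℂ) (σ a b : ℝ) : ℕ :=
  ∑ᶠ s ∈ {s : ℂ | F s = 0 ∧ -1 < s.re ∧ s.re < 1 - σ ∧ a < s.im ∧ s.im ≤ b}, analyticOrderNatAt F s

/-- The bound with exponent `φ(σ) + ε` for the number of the zeros of `F` to the left of `1 - σ`. -/
def LeftDensity (F : ℂ → ℂ) (φ : ℝ → ℝ) : Prop :=
  ∀ ε : ℝ, 0 < ε → ∃ C : ℝ, 0 < C ∧ ∃ T₀ : ℝ, ∀ T : ℝ, T₀ ≤ T → ∀ σ : ℝ, 1 / 2 ≤ σ → σ ≤ 1 →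
    (Left F σ 0 T : ℝ) ≤ C * T ^ (φ σ + ε)

/-- For every `η > 0`, the same bound for the number of the unit intervals `(n, n+1]`, `n + 1 ≤ T`, which
contain the ordinates of at least `η log T` zeros of `F` to the left of `1 - σ`. -/
def LeftClusters (F : ℂ → ℂ) (φ : ℝ → ℝ) : Prop :=
  ∀ ε : ℝ, 0 < ε → ∀ η : ℝ, 0 < η → ∃ C : ℝ, 0 < C ∧ ∃ T₀ : ℝ, ∀ T : ℝ, T₀ ≤ T →
    ∀ σ : ℝ, 1 / 2 ≤ σ → σ ≤ 1 →
      (((Finset.range ⌊T⌋₊).filter (fun n : ℕ => η * Real.log T ≤ Left F σ n (n + 1))).card : ℝ) ≤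
        C * T ^ (φ σ + ε)

theorem result (P : ℂ[X]) (A : ℂ → ℂ) (hP : P ≠ 0) (hA : Tame A) :
    (DensityHypothesis ↔ LeftDensity (F P A) fun σ => 2 * (1 - σ)) ∧
    (DensityHypothesis ↔ LeftClusters (F P A) fun σ => 2 * (1 - σ)) ∧
    (∀ φ : ℝ → ℝ, ContinuousOn φ (Icc (1 / 2) 1) → (∀ σ ∈ Icc (1 / 2 : ℝ) 1, 0 ≤ φ σ) →
      1 ≤ φ (1 / 2) → (ZeroDensity φ ↔ LeftDensity (F P A) φ)) ∧
    (∀ φ : ℝ → ℝ, ContinuousOn φ (Icc (1 / 2) 1) → AntitoneOn φ (Icc (1 / 2) 1) →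
      (∀ σ ∈ Icc (1 / 2 : ℝ) 1, 2 * (1 - σ) ≤ φ σ) → (ZeroDensity φ ↔ LeftClusters (F P A) φ)) := by
  have ht : Pool.Agent.Y853.SP.Tame A := ⟨hA.1, hA.2⟩
  have hD : ∀ φ : ℝ → ℝ, ContinuousOn φ (Icc (1 / 2) 1) → (∀ σ ∈ Icc (1 / 2 : ℝ) 1, 0 ≤ φ σ) →
      1 ≤ φ (1 / 2) → (ZeroDensity φ ↔ LeftDensity (F P A) φ) :=
    fun φ h1 h2 h3 => Pool.Agent.Y853.DZ.dens_equiv hP ht h1 h2 h3
  have hC : ∀ φ : ℝ → ℝ, ContinuousOn φ (Icc (1 / 2) 1) → AntitoneOn φ (Icc (1 / 2) 1) →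
      (∀ σ ∈ Icc (1 / 2 : ℝ) 1, 2 * (1 - σ) ≤ φ σ) → (ZeroDensity φ ↔ LeftClusters (F P A) φ) :=
    fun φ h1 h2 h3 => Pool.Agent.Y853.DZ.clus_equiv hP ht h1 h2 h3
  have hc : ContinuousOn (fun σ : ℝ => 2 * (1 - σ)) (Icc (1 / 2) 1) := by fun_prop
  refine ⟨hD _ hc (fun σ hσ => ?_) (by norm_num), hC _ hc (fun x _ y _ h => ?_) (fun σ _ => le_rfl),
    hD, hC⟩
  · have := hσ.2
    show 0 ≤ 2 * (1 - σ)
    linarith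
  · show 2 * (1 - y) ≤ 2 * (1 - x)
    linarith

end Pool.Agent.Results.MP_4467b5_nt.LeftZerosDensity
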