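import Pool.Agent.Y746.OM.Asm6b

set_option autoImplicit false

/-!
# A zero-density estimate tilted by the square of any short Dirichlet polynomial over squarefree numbers

Let `D(t) = ∑ a(n) n^(-it)` over the squarefree `n ≤ N ≤ T^c`, with `|a(n)| ≤ ∏_{p ∣ n} r(p)`.  Then the zeros
of zeta with `|Re ρ - 1/2| ≥ δ` and `T < Im ρ ≤ 2T`, weighted by `|D|²` near `Im ρ`, have total mass at most
`C T^(1 - cδ) (log T)^C ∏_{p ≤ N} (1 + r(p)² + 8 r(p) p^(-1/2))`; in particular there are at most `1/V` times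
this many zeros (with multiplicity) near which `|D|²` has integral at least `V`.  For `D = 1` this is Selberg's
density theorem near the critical line; the point is the uniformity in `a` and `r`: the product is the full
mean square of the majorant, so that zeros off the line are rare also where `D` is extremely large.

Proof: mollified mean square of `1 - ζ M` against `|D|²`.
Parts of the proof were written by helpers 180, 220, 258, 363, 365, 412, 555, 884.
-/

open MeasureTheory Finset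

namespace Pool.Agent.Results.MP_4467b5_nt.TiltedDensity

open H370 (Zf mult)

/-- the Dirichlet polynomial `∑ a(n) n^(-it)` over the squarefree `n ≤ N` -/
noncomputable def D (a : ℕ → ℂ) (N : ℕ) (t : ℝ) : ℂ :=
  ∑ n ∈ (Icc 1 N).filter Squarefree, a n * (n : ℂ) ^ (-((t : ℂ) * Complex.I))

/-- the zeros of zeta with `T < Im ρ ≤ 2T`, at distance at least `δ` from the critical line -/
def Z (δ T : ℝ) : Set ℂ :=
  {ρ : ℂ | 0 < ρ.re ∧ ρ.re < 1 ∧ T < ρ.im ∧ ρ.im ≤ 2 * T ∧ riemannZeta ρ = 0 ∧ δ ≤ |ρ.re - 1 / 2|}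

/-- the Gaussian count, with multiplicity, of the zeros in `Z δ T` near height `t` -/
noncomputable def W (δ T t : ℝ) : ℝ :=
  ∑ᶠ ρ ∈ Z δ T, (analyticOrderNatAt riemannZeta ρ : ℝ) * Real.exp (-(ρ.im - t) ^ 2 / 2)

/-- the number, with multiplicity, of the zeros in `Z δ T` with `T + 1 ≤ Im ρ ≤ 2T - 1` near which `|D|²` has
integral at least `V` -/
noncomputable def NV (a : ℕ → ℂ) (N : ℕ) (δ T V : ℝ) : ℕ :=
  ∑ᶠ ρ ∈ {ρ ∈ Z δ T | T + 1 ≤ ρ.im ∧ ρ.im ≤ 2 * T - 1 ∧
    V ≤ ∫ t in (ρ.im - 1)..(ρ.im + 1), ‖D a N t‖ ^ 2}, analyticOrderNatAt riemannZeta ρ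

/-- the mean square of the majorant -/
noncomputable def E (r : ℕ → ℝ) (N : ℕ) : ℝ :=
  ∏ p ∈ (Icc 1 N).filter Nat.Prime, (1 + r p ^ 2 + 8 * r p / Real.sqrt p)

lemma D_cont (a : ℕ → ℂ) (N : ℕ) : Continuous (D a N) := by
  unfold D
  refine continuous_finsetSum _ fun n hn => ?_
  have hn0 : (n : ℂ) ≠ 0 := by
    have h1 := (mem_Icc.1 (mem_filter.1 hn).1).1
    exact_mod_cast (by omega : n ≠ 0)
  refine continuous_const.mul ?_
  exact Continuous.const_cpow (by fun_prop) (Or.inl hn0)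

open scoped Classical in
lemma Z_eq {δ T : ℝ} (hT : 1 ≤ T) :
    Z δ T = ↑((Zf riemannZeta T (2 * T)).filter (fun s => δ ≤ |s.re - 1 / 2|)) := by
  ext s
  rw [mem_coe, mem_filter, H370.mem_Zf H370.good_zeta hT]
  constructor
  · rintro ⟨h1, h2, h3, h4, h5, h6⟩
    exact ⟨⟨h1, h2, h3, h4, h5⟩, h6⟩
  · rintro ⟨⟨h1, h2, h3, h4, h5⟩, h6⟩
    exact ⟨h1, h2, h3, h4, h5, h6⟩

theorem result : ∃ c C T₀ : ℝ, 0 < c ∧ 0 < C ∧ ∀ T : ℝ, T₀ ≤ T →
    ∀ δ : ℝ, 2 / Real.log T ≤ δ → δ ≤ 1 / 32 →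
    ∀ (N : ℕ) (a : ℕ → ℂ) (r : ℕ → ℝ), 1 ≤ N → (N : ℝ) ≤ T ^ c → (∀ p, 0 ≤ r p) →
      (∀ n, Squarefree n → ‖a n‖ ≤ ∏ p ∈ n.primeFactors, r p) →
    ∫ t in T..(2 * T), ‖D a N t‖ ^ 2 * W δ T t ≤ C * T ^ (1 - c * δ) * Real.log T ^ C * E r N ∧
    ∀ V : ℝ, 0 < V → (NV a N δ T V : ℝ) ≤ C * T ^ (1 - c * δ) * Real.log T ^ C * E r N / V := by
  classical
  obtain ⟨c, C, T0, hc, -, hC, hT0, H⟩ := Pool.Agent.Y746.OM.TD.h_Fd
  refine ⟨c, 2 * C, T0, hc, by positivity, fun T hT δ hδ1 hδ2 N a r hN hNT hr ha => ?_⟩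
  have hT10 : 10 ≤ T := hT0.trans hT
  have hT1 : 1 ≤ T := by linarith
  have hTp : 0 < T := by linarith
  have hL1 : 1 ≤ Real.log T := by
    have h3 : Real.exp 1 ≤ T := by have := Real.exp_one_lt_d9; linarith
    rw [← Real.log_exp 1]
    exact Real.log_le_log (Real.exp_pos _) h3
  have hEpos : 0 ≤ E r N := prod_nonneg fun p _ => by have := hr p; positivity
  have h1 := H T hT δ hδ1 hδ2 (Pool.Agent.Y746.OM.TD.PN N) r N
    (fun S => a (Pool.Agent.Y746.OM.qS S)) (fun p hp => (mem_filter.1 hp).2) (fun p _ => hr p)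
    (by exact_mod_cast hN) hNT (by
      intro S hS
      rw [Pool.Agent.Y746.OM.FS, mem_filter, mem_powerset] at hS
      obtain ⟨e1, e2⟩ := Pool.Agent.Y746.OM.TD.qS_sq hS.1
      have := ha _ e1
      rwa [e2] at this)
  set F := (Zf riemannZeta T (2 * T)).filter (fun s => δ ≤ |s.re - 1 / 2|) with hF
  have hW : ∀ t : ℝ, W δ T t = ∑ s ∈ F, (mult riemannZeta s : ℝ) * Real.exp (-(s.im - t) ^ 2 / 2) := by
    intro t
    unfold W
    rw [Z_eq hT1, finsum_mem_coe_finset]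
    rfl
  have h2 : ∫ t in T..(2 * T), ‖D a N t‖ ^ 2 * W δ T t ≤
      C * T * Real.log T ^ C * T ^ (-(c * δ)) * E r N := by
    refine le_trans (le_of_eq ?_) h1
    refine intervalIntegral.integral_congr fun t _ => ?_
    rw [hW, Pool.Agent.Y746.OM.TD.RS_eq]
    rfl
  have h3 : C * T * Real.log T ^ C * T ^ (-(c * δ)) * E r N ≤
      C * T ^ (1 - c * δ) * Real.log T ^ (2 * C) * E r N := by
    have e1 : T ^ (1 - c * δ) = T * T ^ (-(c * δ)) := by
      rw [sub_eq_add_neg, Real.rpow_add hTp, Real.rpow_one]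
    have e2 : Real.log T ^ C ≤ Real.log T ^ (2 * C) :=
      Real.rpow_le_rpow_of_exponent_le hL1 (by linarith)
    rw [e1]
    have e3 : 0 ≤ C * (T * T ^ (-(c * δ))) * E r N := by positivity
    calc C * T * Real.log T ^ C * T ^ (-(c * δ)) * E r N =
        (C * (T * T ^ (-(c * δ))) * E r N) * Real.log T ^ C := by ring
      _ ≤ (C * (T * T ^ (-(c * δ))) * E r N) * Real.log T ^ (2 * C) := mul_le_mul_of_nonneg_left e2 e3
      _ = _ := by ring
  set B : ℝ := C * T ^ (1 - c * δ) * Real.log T ^ (2 * C) * E r N with hB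
  have hB0 : 0 ≤ B := by positivity
  have hBe : 2 * C * T ^ (1 - c * δ) * Real.log T ^ (2 * C) * E r N = 2 * B := by rw [hB]; ring
  rw [hBe]
  refine ⟨by linarith, fun V hV => ?_⟩
  have hDc : Continuous (fun t : ℝ => ‖D a N t‖ ^ 2) := ((D_cont a N).norm).pow 2
  set G := F.filter (fun s => T + 1 ≤ s.im ∧ s.im ≤ 2 * T - 1 ∧
    V ≤ ∫ t in (s.im - 1)..(s.im + 1), ‖D a N t‖ ^ 2) with hG
  have hNV : (NV a N δ T V : ℝ) = ∑ s ∈ G, (mult riemannZeta s : ℝ) := by
    unfold NV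
    have : {ρ ∈ Z δ T | T + 1 ≤ ρ.im ∧ ρ.im ≤ 2 * T - 1 ∧
        V ≤ ∫ t in (ρ.im - 1)..(ρ.im + 1), ‖D a N t‖ ^ 2} = ↑G := by
      ext s
      rw [hG, mem_coe, mem_filter, ← mem_coe, ← Z_eq hT1]
      rfl
    rw [this, finsum_mem_coe_finset]
    push_cast
    rfl
  have hcont : ∀ s : ℂ, Continuous fun t : ℝ => ‖D a N t‖ ^ 2 *
      ((mult riemannZeta s : ℝ) * Real.exp (-(s.im - t) ^ 2 / 2)) := by
    intro s
    exact hDc.mul (by fun_prop)
  have h4 : ∫ t in T..(2 * T), ‖D a N t‖ ^ 2 * W δ T t = ∑ s ∈ F, ∫ t in T..(2 * T), ‖D a N t‖ ^ 2 *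
      ((mult riemannZeta s : ℝ) * Real.exp (-(s.im - t) ^ 2 / 2)) := by
    rw [← intervalIntegral.integral_finsetSum fun s _ => (hcont s).intervalIntegrable _ _]
    refine intervalIntegral.integral_congr fun t _ => ?_
    rw [hW, mul_sum]
  have h5 : ∀ s ∈ G, V / 2 * (mult riemannZeta s : ℝ) ≤ ∫ t in T..(2 * T), ‖D a N t‖ ^ 2 *
      ((mult riemannZeta s : ℝ) * Real.exp (-(s.im - t) ^ 2 / 2)) := by
    intro s hs
    obtain ⟨-, g1, g2, g3⟩ := mem_filter.1 hs
    have hm : (0 : ℝ) ≤ mult riemannZeta s := Nat.cast_nonneg _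
    have i1 : ∫ t in (s.im - 1)..(s.im + 1), ‖D a N t‖ ^ 2 * ((mult riemannZeta s : ℝ) * (1 / 2)) ≤
        ∫ t in (s.im - 1)..(s.im + 1), ‖D a N t‖ ^ 2 *
          ((mult riemannZeta s : ℝ) * Real.exp (-(s.im - t) ^ 2 / 2)) := by
      refine intervalIntegral.integral_mono_on (by linarith)
        ((hDc.mul continuous_const).intervalIntegrable _ _) ((hcont s).intervalIntegrable _ _) ?_
      intro t ht
      have j1 : (s.im - t) ^ 2 ≤ 1 := by
        rw [← one_pow 2, sq_le_sq, abs_one, abs_le]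
        constructor <;> linarith [ht.1, ht.2]
      have j2 : 1 / 2 ≤ Real.exp (-(s.im - t) ^ 2 / 2) := by
        have := Real.add_one_le_exp (-(s.im - t) ^ 2 / 2)
        linarith
      exact mul_le_mul_of_nonneg_left (mul_le_mul_of_nonneg_left j2 hm) (sq_nonneg _)
    rw [intervalIntegral.integral_mul_const] at i1
    have i2 : ∫ t in (s.im - 1)..(s.im + 1), ‖D a N t‖ ^ 2 *
          ((mult riemannZeta s : ℝ) * Real.exp (-(s.im - t) ^ 2 / 2)) ≤
        ∫ t in T..(2 * T), ‖D a N t‖ ^ 2 *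
          ((mult riemannZeta s : ℝ) * Real.exp (-(s.im - t) ^ 2 / 2)) := by
      refine intervalIntegral.integral_mono_interval (by linarith) (by linarith) (by linarith) ?_
        ((hcont s).intervalIntegrable _ _)
      refine Filter.Eventually.of_forall fun t => ?_
      show (0 : ℝ) ≤ _
      positivity
    refine le_trans ?_ (i1.trans i2)
    calc V / 2 * (mult riemannZeta s : ℝ) = V * ((mult riemannZeta s : ℝ) * (1 / 2)) := by ring
      _ ≤ _ := mul_le_mul_of_nonneg_right g3 (by positivity)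
  have h6 : ∑ s ∈ G, V / 2 * (mult riemannZeta s : ℝ) ≤ B := by
    refine (sum_le_sum h5).trans ?_
    refine (sum_le_sum_of_subset_of_nonneg (filter_subset _ _) fun s _ _ => ?_).trans
      (h4.symm.le.trans (h2.trans h3))
    refine intervalIntegral.integral_nonneg (by linarith) fun t _ => ?_
    positivity
  rw [← mul_sum, ← hNV] at h6
  rw [le_div_iff₀ hV]
  linarith

end Pool.Agent.Results.MP_4467b5_nt.TiltedDensity
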